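import Mathlib
import Pool.Agent.H.MP_d6d24d_co.B

set_option autoImplicit false

namespace Pool.Agent.Results.MP_d6d24d_co.No

open Pool.Agent.H.MP_d6d24d_co

theorem result :
    ∃ 𝒯 : Set (Set (Fin 3 → ℝ)), IsTiling 𝒯 ∧ LocFin 𝒯 ∧
      ∀ 𝒮 : Set (Set (Fin 3 → ℝ)), IsTiling 𝒮 → LocFin 𝒮 → ¬ Dual 𝒯 𝒮 :=
  ⟨Set.range box, tiling, locfin, main⟩

end Pool.Agent.Results.MP_d6d24d_co.No
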